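import Pool.Agent.L7h52.AM.Gain

/-! An empty system has at most as many exponents as conditions. -/

set_option autoImplicit false

namespace Pool.Agent.L7h52.AM

open MvPolynomial Pool.Agent.H932R2 Pool.Agent.TH176.Nag Pool.Agent.TH603.Sur

theorem sum_ch (n : ℕ) : ∑ k : Fin n, ((k : ℕ) + 1) = (n + 1).choose 2 := by
  rw [Fin.sum_univ_eq_sum_range (fun k => k + 1) n]
  induction n with
  | zero => rfl
  | succ n ih =>
    rw [Finset.sum_range_succ, ih]
    have : (n + 1 + 1).choose 2 = (n + 1).choose 1 + (n + 1).choose 2 := Nat.choose_succ_succ' (n + 1) 1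
    rw [this, Nat.choose_one_right]
    ring

/-- an empty system has at most as many exponents as conditions -/
theorem card_le_of_Emp {n : ℕ} {w : Fin n → ℕ} {T : Finset (ℤ × ℤ)} (h : Emp w (↑T : Set (ℤ × ℤ))) :
    T.card ≤ ∑ i, (w i + 1).choose 2 := by
  classical
  obtain ⟨K, _, _, x, y, hx, hy, hK⟩ := h
  by_contra hcon
  push Not at hcon
  let R := Σ i : Fin n, Σ k : Fin (w i), Fin ((k : ℕ) + 1)
  have hR : Fintype.card R = ∑ i, (w i + 1).choose 2 := by
    rw [Fintype.card_sigma]
    refine Finset.sum_congr rfl fun i _ => ?_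
    rw [Fintype.card_sigma]
    simp only [Fintype.card_fin]
    exact sum_ch _
  let mk : (T → K) → ((ℤ × ℤ) →₀ K) := fun c => ∑ t : T, c t • Finsupp.single (t : ℤ × ℤ) (1 : K)
  let φ : (T → K) →ₗ[K] (R → K) :=
    { toFun := fun c r => pr (mk c) (x r.1) (y r.1)
        (fun q => q.1 ^ ((r.2.2 : ℕ)) * q.2 ^ ((r.2.1 : ℕ) - (r.2.2 : ℕ)))
      map_add' := by
        intro c c'
        funext r
        show pr (mk (c + c')) _ _ _ = pr (mk c) _ _ _ + pr (mk c') _ _ _
        rw [← pr_add_left']
        congr 1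
        show ∑ t : T, _ = ∑ t : T, _ + ∑ t : T, _
        rw [← Finset.sum_add_distrib]
        exact Finset.sum_congr rfl fun t _ => by rw [Pi.add_apply, add_smul]
      map_smul' := by
        intro a c
        funext r
        show pr (mk (a • c)) _ _ _ = a * pr (mk c) _ _ _
        rw [← pr_smul_left]
        congr 1
        show ∑ t : T, _ = a • ∑ t : T, _
        rw [Finset.smul_sum]
        exact Finset.sum_congr rfl fun t _ => by rw [Pi.smul_apply, smul_eq_mul, mul_smul] }
  have hlt : Module.finrank K (R → K) < Module.finrank K (T → K) := by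
    rw [Module.finrank_fintype_fun_eq_card, Module.finrank_fintype_fun_eq_card, hR, Fintype.card_coe]
    exact hcon
  have hker := LinearMap.ker_ne_bot_of_finrank_lt (f := φ) hlt
  obtain ⟨c, hc, hc0⟩ := (Submodule.ne_bot_iff _).1 hker
  rw [LinearMap.mem_ker] at hc
  have h1 : mk c = 0 := by
    apply hK
    · intro m hm
      have h5 := Finsupp.support_finsetSum hm
      rw [Finset.mem_biUnion] at h5
      obtain ⟨t, _, ht⟩ := h5
      have h6 := Finsupp.support_smul ht
      rw [Finset.mem_singleton.1 (Finsupp.support_single_subset h6)]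
      exact t.2
    · intro i
      apply LM_of_mono
      intro a b hab
      have h2 := congrFun hc ⟨i, ⟨a + b, hab⟩, ⟨a, by simp only; omega⟩⟩
      have h3 : pr (mk c) (x i) (y i) (fun q : K × K => q.1 ^ a * q.2 ^ (a + b - a)) = 0 := h2
      rwa [Nat.add_sub_cancel_left] at h3
  apply hc0
  funext t
  have h2 := DFunLike.congr_fun h1 (t : ℤ × ℤ)
  show c t = 0
  rw [show mk c = ∑ t : T, c t • Finsupp.single (t : ℤ × ℤ) (1 : K) from rfl,
    Finsupp.coe_finsetSum, Finset.sum_apply, Finset.sum_eq_single t] at h2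
  · simpa using h2
  · intro t' _ hne
    rw [Finsupp.smul_apply, Finsupp.single_apply, if_neg (fun h => hne (Subtype.ext h)), smul_zero]
  · intro h; exact absurd (Finset.mem_univ t) h


theorem card_Tfin' (d : ℕ) : (Tfin d).card = (d + 2).choose 2 := by
  have h4 := card_Tfin d
  have h5 : (d + 2).choose 2 * 2 = (d + 2) * (d + 1) := by
    rw [Nat.choose_two_right, Nat.div_mul_cancel (Nat.even_mul_pred_self _).two_dvd]
    rfl
  have h6 : (d + 1) * (d + 2) = (d + 2) * (d + 1) := Nat.mul_comm _ _
  omega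

theorem coe_TF (d : ℕ) : ((Tfin d).image fun p : ℕ × ℕ => ((p.1 : ℤ), (p.2 : ℤ)) : Set (ℤ × ℤ)) ⊆ TZ d := by
  rintro m hm
  rw [Finset.coe_image] at hm
  obtain ⟨p, hp, rfl⟩ := hm
  have : p ∈ Tset d := by rw [← coe_Tfin]; exact hp
  have h3 : p.1 + p.2 ≤ d := this
  exact ⟨by simp, by simp, by simp only; omega⟩

theorem card_TF (d : ℕ) :
    ((Tfin d).image fun p : ℕ × ℕ => ((p.1 : ℤ), (p.2 : ℤ))).card = (d + 2).choose 2 := by
  rw [Finset.card_image_of_injective, card_Tfin']
  intro p q h
  simp only [Prod.mk.injEq, Nat.cast_inj] at h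
  exact Prod.ext h.1 h.2

/-- emptiness: the number of conditions is at least the number of monomials -/
theorem le_of_Emp {n : ℕ} {w : Fin n → ℕ} {d : ℕ} (h : Emp w (TZ d)) :
    (d + 2).choose 2 ≤ ∑ i, (w i + 1).choose 2 := by
  have h1 := card_le_of_Emp (h.mono (coe_TF d))
  rwa [card_TF] at h1

/-- independence: the number of conditions is at most the number of monomials -/
theorem le_of_Sur {n : ℕ} {w : Fin n → ℕ} {d : ℕ} (h : Sur w (TZ d)) :
    ∑ i, (w i + 1).choose 2 ≤ (d + 2).choose 2 := by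
  obtain ⟨T, h1, h2, -⟩ := h
  obtain ⟨T', h3, h4, h5⟩ := exists_nat h1
  have h6 : T' ⊆ Tfin d := by
    intro p hp
    have := h5 hp
    rw [← coe_Tfin] at this
    exact this
  have h7 := Finset.card_le_card h6
  rw [card_Tfin', h4, h2] at h7
  exact h7

end Pool.Agent.L7h52.AM
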