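import Mathlib
import Pool.Agent.TH885.NW.Prop

/-! Counting the sums with a degree in a window. -/

set_option autoImplicit false

namespace Pool.Agent.L7h52.AM

theorem cntW_class {n : ℕ} (hn : ¬ IsSquare n) {k : ℕ} (hk : 0 < k) (c : ℕ) {lo hi : ℝ} (hab : lo ≤ hi)
    {ε : ℝ} (hε : 0 < ε) :
    ∃ M0 : ℝ, ∀ M : ℕ, M0 ≤ M → ∀ B : Finset ℕ, (∀ W ∈ B, W < M) →
      (∀ W ∈ B, ∃ d : ℕ, d % k = c ∧ lo ≤ (d : ℝ) - W / √(n : ℝ) ∧ (d : ℝ) - W / √(n : ℝ) ≤ hi) →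
      (B.card : ℝ) ≤ ((hi - lo) / k + ε) * M := by
  have hkR : (0 : ℝ) < k := by exact_mod_cast hk
  have hirr : Irrational ((√(n : ℝ) * k)⁻¹) :=
    ((irrational_sqrt_natCast_iff.2 hn).mul_natCast (by omega)).inv
  obtain ⟨M0, hM0⟩ := Pool.Agent.TH885.NW.count_sharp hirr 0 (-(lo - c) / k) ((hi - c) / k)
    (by rw [← add_div]; exact div_nonneg (by linarith) hkR.le) hε
  refine ⟨M0, fun M hM B hB hbad => ?_⟩
  refine (hM0 M hM B hB fun W hW => ?_).trans_eq (by ring)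
  obtain ⟨d, h1, h2, h3⟩ := hbad W hW
  have h4 : d = k * (d / k) + c := by rw [← h1]; exact (Nat.div_add_mod d k).symm
  have h5 : (d : ℝ) = k * ((d / k : ℕ) : ℝ) + c := by exact_mod_cast h4
  have e : (√(n : ℝ) * k)⁻¹ * (W : ℝ) = (W / √(n : ℝ)) / k := by
    rw [mul_inv]
    ring
  rw [h5] at h2 h3
  refine ⟨((d / k : ℕ) : ℤ), ?_, ?_⟩
  · rw [Int.cast_natCast, e, neg_div, sub_neg_eq_add, add_zero, ← add_div, div_le_iff₀ hkR]
    linarith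
  · rw [Int.cast_natCast, e, add_zero, ← add_div, le_div_iff₀ hkR]
    linarith

theorem cntW_classes {n : ℕ} (hn : ¬ IsSquare n) {k : ℕ} (hk : 0 < k) (lo hi : ℕ → ℝ) (C : Finset ℕ) :
    (∀ c ∈ C, lo c ≤ hi c) → ∀ ε : ℝ, 0 < ε → ∃ M0 : ℕ, ∀ M : ℕ, M0 ≤ M →
      (Set.ncard {W : ℕ | W < M ∧ ∃ c ∈ C, ∃ d : ℕ, d % k = c ∧ lo c ≤ (d : ℝ) - W / √(n : ℝ) ∧
        (d : ℝ) - W / √(n : ℝ) ≤ hi c} : ℝ) ≤ (∑ c ∈ C, (hi c - lo c) / k + ε) * M := by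
  classical
  induction C using Finset.induction_on with
  | empty =>
    intro _ ε hε
    refine ⟨0, fun M _ => ?_⟩
    simp only [Finset.notMem_empty, false_and, exists_false, and_false, Set.ofPred_false, Set.ncard_empty,
      Finset.sum_empty, zero_add, Nat.cast_zero]
    positivity
  | insert c C hc ih =>
    intro hab ε hε
    obtain ⟨M0, hM0⟩ := ih (fun c' hc' => hab c' (Finset.mem_insert_of_mem hc')) (ε / 2) (half_pos hε)
    obtain ⟨M1, hM1⟩ := cntW_class hn hk c (hab c (Finset.mem_insert_self c C)) (half_pos hε)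
    refine ⟨max M0 ⌈M1⌉₊, fun M hM => ?_⟩
    have h1 := hM0 M ((le_max_left _ _).trans hM)
    have hMR : M1 ≤ M := (Nat.le_ceil M1).trans (by exact_mod_cast (le_max_right _ _).trans hM)
    have hfin : ∀ Q : ℕ → Prop, {m : ℕ | m < M ∧ Q m}.Finite := fun Q =>
      (Set.finite_lt_nat M).subset fun m hm => hm.1
    have h2 := hM1 M hMR (hfin fun W => ∃ d : ℕ, d % k = c ∧ lo c ≤ (d : ℝ) - W / √(n : ℝ) ∧
        (d : ℝ) - W / √(n : ℝ) ≤ hi c).toFinset (fun m hm => ((Set.Finite.mem_toFinset _).1 hm).1)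
      (fun m hm => ((Set.Finite.mem_toFinset _).1 hm).2)
    rw [← Set.ncard_eq_toFinset_card _ (hfin _)] at h2
    rw [Finset.sum_insert hc]
    have h3 : (Set.ncard {W : ℕ | W < M ∧ ∃ c' ∈ insert c C, ∃ d : ℕ, d % k = c' ∧
        lo c' ≤ (d : ℝ) - W / √(n : ℝ) ∧ (d : ℝ) - W / √(n : ℝ) ≤ hi c'}) ≤
        Set.ncard {W : ℕ | W < M ∧ ∃ d : ℕ, d % k = c ∧ lo c ≤ (d : ℝ) - W / √(n : ℝ) ∧
          (d : ℝ) - W / √(n : ℝ) ≤ hi c} +
        Set.ncard {W : ℕ | W < M ∧ ∃ c ∈ C, ∃ d : ℕ, d % k = c ∧ lo c ≤ (d : ℝ) - W / √(n : ℝ) ∧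
          (d : ℝ) - W / √(n : ℝ) ≤ hi c} := by
      refine (Set.ncard_le_ncard ?_ ((hfin _).union (hfin _))).trans (Set.ncard_union_le _ _)
      rintro m ⟨hm, c', hc', hd⟩
      rcases Finset.mem_insert.1 hc' with rfl | hc'
      · exact Or.inl ⟨hm, hd⟩
      · exact Or.inr ⟨hm, c', hc', hd⟩
    have h4 : ((Set.ncard {W : ℕ | W < M ∧ ∃ c' ∈ insert c C, ∃ d : ℕ, d % k = c' ∧
        lo c' ≤ (d : ℝ) - W / √(n : ℝ) ∧ (d : ℝ) - W / √(n : ℝ) ≤ hi c'} : ℕ) : ℝ) ≤ _ :=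
      Nat.cast_le.2 h3
    refine h4.trans ?_
    rw [Nat.cast_add]
    refine (add_le_add h2 h1).trans_eq ?_
    ring

/-- windows `lo c ≤ d - W / √n ≤ hi c` in the classes `c` of `d` modulo `k` -/
theorem cntW {n : ℕ} (hn : ¬ IsSquare n) {k : ℕ} (hk : 0 < k) {lo hi : ℕ → ℝ} {Q : ℕ → ℕ → Prop}
    (hQ : ∀ W d, Q W d → lo (d % k) ≤ (d : ℝ) - W / √(n : ℝ) ∧ (d : ℝ) - W / √(n : ℝ) ≤ hi (d % k))
    {ε : ℝ} (hε : 0 < ε) : ∃ M0 : ℕ, ∀ M : ℕ, M0 ≤ M →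
      (Set.ncard {W : ℕ | W < M ∧ ∃ d, Q W d} : ℝ) ≤
        (∑ c ∈ Finset.range k, max 0 (hi c - lo c) / k + ε) * M := by
  classical
  obtain ⟨M0, hM0⟩ := cntW_classes hn hk lo hi ((Finset.range k).filter fun c => lo c ≤ hi c)
    (fun c hc => (Finset.mem_filter.1 hc).2) ε hε
  refine ⟨M0, fun M hM => ?_⟩
  have h1 := hM0 M hM
  have h2 : (Set.ncard {W : ℕ | W < M ∧ ∃ d, Q W d} : ℝ) ≤
      (Set.ncard {W : ℕ | W < M ∧ ∃ c ∈ (Finset.range k).filter fun c => lo c ≤ hi c, ∃ d : ℕ,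
        d % k = c ∧ lo c ≤ (d : ℝ) - W / √(n : ℝ) ∧ (d : ℝ) - W / √(n : ℝ) ≤ hi c} : ℝ) := by
    apply Nat.cast_le.2
    refine Set.ncard_le_ncard ?_ ((Set.finite_lt_nat M).subset fun m hm => hm.1)
    rintro m ⟨hm, d, hd⟩
    obtain ⟨h3, h4⟩ := hQ m d hd
    refine ⟨hm, d % k, ?_, d, rfl, h3, h4⟩
    rw [Finset.mem_filter, Finset.mem_range]
    exact ⟨Nat.mod_lt _ hk, h3.trans h4⟩
  refine h2.trans (h1.trans ?_)
  apply mul_le_mul_of_nonneg_right _ (Nat.cast_nonneg M)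
  have hkR : (0 : ℝ) < k := by exact_mod_cast hk
  have h5 : ∑ c ∈ (Finset.range k).filter (fun c => lo c ≤ hi c), (hi c - lo c) / k ≤
      ∑ c ∈ Finset.range k, max 0 (hi c - lo c) / k := by
    rw [Finset.sum_filter]
    apply Finset.sum_le_sum
    intro c _
    split_ifs with h
    · exact div_le_div_of_nonneg_right (le_max_right _ _) hkR.le
    · exact div_nonneg (le_max_left _ _) hkR.le
  linarith

end Pool.Agent.L7h52.AM
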