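import Pool.Agent.L7h52.NQ.Fin4
import Pool.Agent.L7h52.QW.Fin26

/-! Arbitrary multiplicities at 16 or more and at 25 or more points. -/

set_option autoImplicit false

namespace Pool.Agent.L7h52.AM

open Finset Pool.Agent.TH176.Nag Pool.Agent.TH603.Sur Pool.Agent.TH603.Cut Pool.Agent.H932R3

/-- the gain of the quartics -/
noncomputable def g4 (N d : ℕ) : ℝ :=
  if d % 4 = 0 then √(N : ℝ) / 2 - 1 else if d % 4 = 1 then 3 / 7 * √(N : ℝ) else √(N : ℝ) / 2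

/-- the gain of the quintics -/
noncomputable def g5 (N d : ℕ) : ℝ :=
  if d % 5 = 0 then √(N : ℝ) - 1 else if d % 5 = 1 then √(N : ℝ) - 2
  else if d % 5 = 2 then 18 / 19 * √(N : ℝ) else √(N : ℝ)

theorem emp4 {ι : Type} [Fintype ι] (hn : 16 ≤ Fintype.card ι) {w : ι → ℕ} (hw : ∀ i, 1 ≤ w i) {d : ℕ}
    (h : √(Fintype.card ι) * (d : ℝ) < ∑ i, (w i : ℝ) + g4 (Fintype.card ι) d) : Emp w (TZ d) := by
  unfold g4 at h
  split_ifs at h with h0 h1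
  · have : 0 < Fintype.card ι := by omega
    obtain ⟨i⟩ := Fintype.card_pos_iff.1 this
    exact NQ.nag16z NQ.parts.emp L7h96.NQ.s_ONEX hn ⟨i, hw i⟩ (by linarith)
  · exact NQ.nag16 NQ.parts.emp hn (by omega) (Or.inl (by linarith))
  · exact NQ.nag16 NQ.parts.emp hn (by omega) (Or.inr ⟨by omega, by linarith⟩)

theorem emp5 {ι : Type} [Fintype ι] (hn : 25 ≤ Fintype.card ι) {w : ι → ℕ} (hw : ∀ i, 1 ≤ w i) {d : ℕ}
    (h : √(Fintype.card ι) * (d : ℝ) < ∑ i, (w i : ℝ) + g5 (Fintype.card ι) d) : Emp w (TZ d) := by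
  have : 1 < Fintype.card ι := by omega
  obtain ⟨i, j, hij⟩ := Fintype.exists_pair_of_one_lt_card this
  unfold g5 at h
  split_ifs at h with h0 h1 h2
  · exact L7h43.QU.nag25z L7h43.QU.emp L7h96.NQ.s_ONEX hn (Or.inl ⟨by omega, ⟨i, hw i⟩, by linarith⟩)
  · exact L7h43.QU.nag25z L7h43.QU.emp L7h96.NQ.s_ONEX hn
      (Or.inr ⟨⟨i, j, hij, hw i, hw j⟩, by linarith⟩)
  · exact L7h43.QU.nag25 L7h43.QU.emp hn (Or.inr ⟨by omega, by linarith⟩)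
  · exact L7h43.QU.nag25 L7h43.QU.emp hn (Or.inl ⟨by omega, by linarith⟩)

/-- the ranges of emptiness, for some set `T` of the points -/
def Low {n : ℕ} (w : Fin n → ℕ) (d : ℕ) : Prop :=
  ∃ T : Finset (Fin n), (∀ i ∈ T, 1 ≤ w i) ∧
    (16 ≤ T.card ∧ √(T.card : ℝ) * (d : ℝ) < ∑ i ∈ T, (w i : ℝ) + g4 T.card d ∨
      25 ≤ T.card ∧ √(T.card : ℝ) * (d : ℝ) < ∑ i ∈ T, (w i : ℝ) + g5 T.card d)

/-- the ranges of independence -/
def High {n : ℕ} (w : Fin n → ℕ) (d : ℕ) : Prop :=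
  ∃ b : ℕ, (∀ i, w i ≤ b + 1) ∧
    (17 ≤ n ∧ (n : ℝ) + ∑ i, ((max (w i) b : ℕ) : ℝ) < √(n : ℝ) * (d + 7 / 2) ∨
      26 ≤ n ∧ (n : ℝ) + ∑ i, ((max (w i) b : ℕ) : ℝ) < √(n : ℝ) * (d + 4))

theorem emp_low {n : ℕ} {w : Fin n → ℕ} {d : ℕ} (h : Low w d) : Emp w (TZ d) := by
  obtain ⟨T, hT, h⟩ := h
  have hc : Fintype.card ↥T = T.card := by simp
  have hs : ∑ i : ↥T, (w i : ℝ) = ∑ i ∈ T, (w i : ℝ) := Finset.sum_coe_sort T fun i => (w i : ℝ)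
  refine Emp_emb (ι := ↥T) (κ := Fin n) (w := fun i : ↥T => w i) (v := w) (fun i : ↥T => (i : Fin n))
    Subtype.val_injective (fun i => le_rfl) ?_
  rcases h with ⟨h1, h2⟩ | ⟨h1, h2⟩
  · refine emp4 (ι := ↥T) (by rw [hc]; exact h1) (fun i => hT i i.2) ?_
    rw [hc, hs]
    exact h2
  · refine emp5 (ι := ↥T) (by rw [hc]; exact h1) (fun i => hT i i.2) ?_
    rw [hc, hs]
    exact h2

theorem sur_high {n : ℕ} {w : Fin n → ℕ} {d : ℕ} (h : High w d) : Sur w (TZ d) := by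
  obtain ⟨b, hb, h⟩ := h
  rcases h with ⟨h1, h2⟩ | ⟨h1, h2⟩
  · refine NQ.Sur_plane4 NQ.parts.sur (by rw [Fintype.card_fin]; exact h1) hb ?_
    rw [Fintype.card_fin]
    push_cast at h2 ⊢
    exact h2
  · refine QW.Sur_plane5 L7h43.QU.sur (by rw [Fintype.card_fin]; exact h1) hb ?_
    rw [Fintype.card_fin]
    push_cast at h2 ⊢
    exact h2

theorem expLH {n : ℕ} (w : Fin n → ℕ) :
    ∃ F : MvPolynomial (Fin n × Fin 2) ℚ, F ≠ 0 ∧ ∀ {L : Type} [Field L] [CharZero L]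
      (P : Fin n → Fin 2 → L), MvPolynomial.aeval (fun ij : Fin n × Fin 2 => P ij.1 ij.2) F ≠ 0 →
      ∀ d : ℕ, Low w d ∨ High w d → ExpDim L w P d :=
  Pool.Agent.TH864.SX.expDim_of_or' fun _ hd => hd.imp emp_low sur_high

end Pool.Agent.L7h52.AM
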