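import Pool.Agent.L7h52.AM.Card
import Pool.Agent.TH885.NW.Exp2

/-! Multiplicities `m` and `m + 1` at 17 to 35 points. -/

set_option autoImplicit false

namespace Pool.Agent.L7h52.AM

open Finset Pool.Agent.TH176.Nag Pool.Agent.TH603.Sur Pool.Agent.TH603.Cut Pool.Agent.H932R3
open Pool.Agent.TH885.NW (loW upW)

/-- the lower end of the window for `d - W / √n` -/
noncomputable def lowN (n d : ℕ) : ℝ :=
  if n < 25 then (if d % 4 = 0 then 1 / 2 - 1 / √(n : ℝ) else if d % 4 = 1 then 3 / 7 else 1 / 2)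
  else if d % 5 = 0 then 1 - 1 / √(n : ℝ) else if d % 5 = 1 then 1 - 2 / √(n : ℝ)
  else if d % 5 = 2 then 18 / 19 else 1

/-- the upper end -/
noncomputable def highN (n : ℕ) : ℝ := if n < 25 then √(n : ℝ) - 7 / 2 else √(n : ℝ) - 4

/-- the window of the quartics and quintics -/
def WinN (n W d : ℕ) : Prop :=
  lowN n d ≤ (d : ℝ) - W / √(n : ℝ) ∧ (d : ℝ) - W / √(n : ℝ) ≤ highN n

theorem near_dich {n m : ℕ} (h17 : 17 ≤ n) (h25 : n ≠ 25) (hm : 1 ≤ m) {w : Fin n → ℕ}
    (hw : ∀ i, w i = m ∨ w i = m + 1) {W : ℕ} (hW : ∑ i, w i = W) {d : ℕ} (hd : ¬ WinN n W d) :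
    Low w d ∨ High w d := by
  have hnR : (17 : ℝ) ≤ n := by exact_mod_cast h17
  obtain ⟨s, hs⟩ : ∃ s : ℝ, s = √(n : ℝ) := ⟨_, rfl⟩
  have hs2 : s * s = n := by rw [hs]; exact Real.mul_self_sqrt (by linarith)
  have hs0 : 0 < s := by rw [hs]; exact Real.sqrt_pos.2 (by linarith)
  have hWR : (∑ i, (w i : ℝ)) = W := by rw [← hW]; push_cast; rfl
  have hWb : ((∑ i, max (w i) m : ℕ) : ℝ) = W := by
    rw [← hW]
    congr 1
    refine Finset.sum_congr rfl fun i _ => max_eq_left ?_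
    rcases hw i with h | h <;> omega
  have hx : ∀ {t : ℝ}, (d : ℝ) - W / s < t → s * d < W + t * s := by
    intro t ht
    have h1 := mul_lt_mul_of_pos_left ht hs0
    have h2 : s * ((d : ℝ) - W / s) = s * d - W := by field_simp
    rw [h2] at h1
    linarith
  have hy : ∀ {t : ℝ}, t < (d : ℝ) - W / s → W + t * s < s * d := by
    intro t ht
    have h1 := mul_lt_mul_of_pos_left ht hs0
    have h2 : s * ((d : ℝ) - W / s) = s * d - W := by field_simp
    rw [h2] at h1
    linarith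
  unfold WinN at hd
  rw [← hs] at hd
  by_cases h1 : (d : ℝ) - W / s ≤ highN n
  · left
    have h2 : (d : ℝ) - W / s < lowN n d := by
      by_contra hcon
      exact hd ⟨not_lt.1 hcon, h1⟩
    have h3 := hx h2
    refine ⟨Finset.univ, fun i _ => by rcases hw i with h | h <;> omega, ?_⟩
    rw [Finset.card_univ, Fintype.card_fin, hWR, ← hs]
    unfold lowN at h3
    rw [← hs] at h3
    have e1 : 1 / s * s = 1 := by field_simp
    have e2 : 2 / s * s = 2 := by field_simp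
    by_cases h4 : n < 25
    · rw [if_pos h4] at h3
      left
      refine ⟨by omega, ?_⟩
      unfold g4
      rw [← hs]
      split_ifs at h3 ⊢ <;> linarith
    · rw [if_neg h4] at h3
      right
      refine ⟨by omega, ?_⟩
      unfold g5
      rw [← hs]
      split_ifs at h3 ⊢ <;> linarith
  · right
    have h3 := hy (not_le.1 h1)
    refine ⟨m, fun i => by rcases hw i with h | h <;> omega, ?_⟩
    have h5 : ∑ i, ((max (w i) m : ℕ) : ℝ) = W := by
      rw [← Nat.cast_sum]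
      exact hWb
    rw [h5, ← hs, ← hs2]
    unfold highN at h3
    rw [← hs] at h3
    by_cases h4 : n < 25
    · rw [if_pos h4] at h3
      left
      exact ⟨h17, by linarith⟩
    · rw [if_neg h4] at h3
      right
      exact ⟨by omega, by linarith⟩

/-- the window of the starting library -/
def OpenN (n W d : ℕ) : Prop :=
  -loW n ≤ 2 * (d : ℝ) + 3 - √(n : ℝ) - 2 * W / √(n : ℝ) ∧
    2 * (d : ℝ) + 3 - √(n : ℝ) - 2 * W / √(n : ℝ) ≤ upW n

/-- **multiplicities `m` and `m + 1` at 17 or more points** -/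
theorem expN {n m : ℕ} (h17 : 17 ≤ n) (h25 : n ≠ 25) (hm : 1 ≤ m) {w : Fin n → ℕ}
    (hw : ∀ i, w i = m ∨ w i = m + 1) {W : ℕ} (hW : ∑ i, w i = W) {L : Type} [Field L] [CharZero L] :
    ∃ F : MvPolynomial (Fin n × Fin 2) ℚ, F ≠ 0 ∧ ∀ (P : Fin n → Fin 2 → L),
      MvPolynomial.aeval (fun ij : Fin n × Fin 2 => P ij.1 ij.2) F ≠ 0 →
      ∀ d : ℕ, ¬ (OpenN n W d ∧ WinN n W d) → ExpDim L w P d := by
  obtain ⟨F, hF, hF'⟩ := expLH w
  obtain ⟨G, hG, hG'⟩ := Pool.Agent.TH885.NW.exp_near2 (L := L) (n := n) (m := m) (by omega) hm hw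
  refine ⟨F * G, mul_ne_zero hF hG, fun P hP d hd => ?_⟩
  rw [map_mul] at hP
  have hWR : (∑ i, (w i : ℝ)) = W := by rw [← hW]; push_cast; rfl
  by_cases hO : OpenN n W d
  · exact hF' P (left_ne_zero_of_mul hP) d (near_dich h17 h25 hm hw hW fun h => hd ⟨hO, h⟩)
  · refine hG' P (right_ne_zero_of_mul hP) d ?_
    rw [hWR]
    by_contra hcon
    push Not at hcon
    apply hO
    refine ⟨?_, ?_⟩
    · linarith [hcon.2]
    · linarith [hcon.1]

end Pool.Agent.L7h52.AM
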